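import Pool.Agent.H61.CM4.TargetsB
import Pool.Agent.H58.MZ.SH
import Pool.Agent.H2.PZ.VV

/-!
# The contour shift across the pole
-/

set_option autoImplicit false

namespace Pool.Agent.H60.CM4B

open MeasureTheory Set Filter Complex
open Pool.Agent.H65.CM4 Pool.Agent.H25.HK Pool.Agent.H61.CM4
open scoped Real

theorem pf_SHI : T_SHI := by
  intro Φ s hΦ hb h1 h2
  obtain ⟨C, j, hC⟩ := hb 2
  obtain ⟨F, hF⟩ : ∃ F : ℂ → ℂ, F = fun w => Φ w * cexp ((w - s) ^ 2) := ⟨_, rfl⟩
  have hcon := Pool.Agent.H58.MZ.sh Pool.Agent.H2.PZ.vv F (-1) 2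
    (|C| * j.factorial * Real.exp (11 + 2 * |s.im|)) s (by simpa using h1) (by simpa using h2)
    (fun w _ _ => by
      rw [hF]
      exact (hΦ w).mul (by fun_prop))
    (fun w h3 h4 => by
      have h5 : ‖Φ w‖ ≤ |C| * (j.factorial * Real.exp (1 + |w.im|)) := by
        refine (hC w (abs_le.2 ⟨by linarith, h4⟩)).trans ?_
        have h6 : (1 + |w.im|) ^ j ≤ j.factorial * Real.exp (1 + |w.im|) := by
          have := Real.pow_div_factorial_le_exp (1 + |w.im|) (by positivity) j
          rw [div_le_iff₀ (by positivity)] at this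
          linarith
        exact mul_le_mul (le_abs_self C) h6 (by positivity) (abs_nonneg C)
      have h7 : ‖cexp ((w - s) ^ 2)‖ ≤ Real.exp (9 - (w.im - s.im) ^ 2) := by
        rw [Complex.norm_exp]
        apply Real.exp_le_exp.2
        have e : ((w - s) ^ 2).re = (w.re - s.re) ^ 2 - (w.im - s.im) ^ 2 := by
          rw [sq]
          simp only [mul_re, sub_re, sub_im]
          ring
        rw [e]
        nlinarith
      have h8 : Real.exp (1 + |w.im|) * Real.exp (9 - (w.im - s.im) ^ 2) ≤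
          Real.exp (11 + 2 * |s.im|) * Real.exp (-|w.im|) := by
        rw [← Real.exp_add, ← Real.exp_add]
        apply Real.exp_le_exp.2
        have h9 : |w.im| ≤ |w.im - s.im| + |s.im| := by
          calc |w.im| = |(w.im - s.im) + s.im| := by ring_nf
            _ ≤ _ := abs_add_le _ _
        have h10 : 2 * |w.im - s.im| ≤ (w.im - s.im) ^ 2 + 1 := by
          rw [← sq_abs (w.im - s.im)]
          nlinarith [sq_nonneg (|w.im - s.im| - 1)]
        linarith
      rw [hF, norm_mul]
      calc ‖Φ w‖ * ‖cexp ((w - s) ^ 2)‖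
          ≤ (|C| * (j.factorial * Real.exp (1 + |w.im|))) *
              Real.exp (9 - (w.im - s.im) ^ 2) :=
            mul_le_mul h5 h7 (norm_nonneg _) (by positivity)
        _ = (|C| * j.factorial) *
              (Real.exp (1 + |w.im|) * Real.exp (9 - (w.im - s.im) ^ 2)) := by ring
        _ ≤ (|C| * j.factorial) * (Real.exp (11 + 2 * |s.im|) * Real.exp (-|w.im|)) :=
            mul_le_mul_of_nonneg_left h8 (by positivity)
        _ = _ := by ring)
  have hFs : F s = Φ s := by
    rw [hF]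
    simp
  rw [hFs] at hcon
  have i1 : ∫ t : ℝ, F ((2 : ℝ) + t * I) / ((2 : ℝ) + t * I - s) =
      ∫ t : ℝ, Φ (2 + t * I) * (cexp ((2 + t * I - s) ^ 2) / (2 + t * I - s)) := by
    refine integral_congr_ae (Eventually.of_forall fun t => ?_)
    simp only [hF]
    push_cast
    ring
  have i2 : ∫ t : ℝ, F ((-1 : ℝ) + t * I) / ((-1 : ℝ) + t * I - s) =
      -∫ t : ℝ, Φ (1 - (2 + t * I)) *
        (cexp ((2 + t * I - (1 - s)) ^ 2) / (2 + t * I - (1 - s))) := by
    rw [← integral_neg_eq_self, ← integral_neg]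
    refine integral_congr_ae (Eventually.of_forall fun t => ?_)
    have e1 : (((-1 : ℝ) : ℂ) + ((-t : ℝ) : ℂ) * I) = 1 - (2 + t * I) := by
      push_cast
      ring
    have e2 : (1 - (2 + t * I) - s : ℂ) = -(2 + t * I - (1 - s)) := by ring
    simp only [hF, e1, e2, neg_sq, div_neg]
    ring
  rw [i1, i2] at hcon
  rw [← hcon]
  ring

end Pool.Agent.H60.CM4B
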