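import Pool.Agent.H61.CM4.TargetsB
import Pool.Agent.H87.HK.YC

/-!
# Invariance under the units
-/

set_option autoImplicit false

namespace Pool.Agent.H60.CM4B

open MeasureTheory Set Filter NumberField NumberField.InfinitePlace NumberField.Units
  NumberField.Units.dirichletUnitTheorem
open Pool.Agent.H65.CM4 Pool.Agent.H25.HK Pool.Agent.H61.CM4
open scoped Real

variable {k : Type} [Field k] [NumberField k] [IsTotallyReal k]

theorem abs_rv (v : Pl k) (x : k) : |rv v x| = v x := by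
  have := norm_embedding_of_isReal (IsTotallyReal.isReal v) x
  rwa [Real.norm_eq_abs] at this

theorem qr_smul (x y e a b : ℝ) : qr x y (e * a) (e * b) = e ^ 2 * qr x y a b := by
  unfold qr
  ring

theorem rv_smul (v : Pl k) (e : (𝓞 k)ˣ) (u : V2 k) (x y : ℝ) :
    qr x y (rv v ((((e : 𝓞 k) • u).1 : 𝓞 k) : k)) (rv v ((((e : 𝓞 k) • u).2 : 𝓞 k) : k)) =
      rv v ((e : 𝓞 k) : k) ^ 2 * qr x y (rv v (u.1 : k)) (rv v (u.2 : k)) := by
  rw [← qr_smul]
  have h1 : ((((e : 𝓞 k) • u).1 : 𝓞 k) : k) = ((e : 𝓞 k) : k) * (u.1 : k) := by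
    rw [Prod.smul_fst, smul_eq_mul]
    exact map_mul (algebraMap (𝓞 k) k) _ _
  have h2 : ((((e : 𝓞 k) • u).2 : 𝓞 k) : k) = ((e : 𝓞 k) : k) * (u.2 : k) := by
    rw [Prod.smul_snd, smul_eq_mul]
    exact map_mul (algebraMap (𝓞 k) k) _ _
  rw [h1, h2, map_mul, map_mul]

theorem pf_UI2 : T_UI2 := by
  intro k _ _ _ x y τ z ε
  classical
  have h1 : ∀ u : V2 k, qs x y (yc k τ (z + logEmbedding k (Additive.ofMul ε))) u =
      qs x y (yc k τ z) ((ε : 𝓞 k) • u) := by
    intro u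
    unfold qs
    refine Finset.sum_congr rfl fun v _ => ?_
    rw [(Pool.Agent.H87.HK.yc_main k).2.2.1, Real.exp_add, rv_smul]
    have hne : ((ε : 𝓞 k) : k) ≠ 0 := by
      simpa using ε.ne_zero
    have hpos : 0 < v ((ε : 𝓞 k) : k) := by
      rw [NumberField.InfinitePlace.pos_iff]
      exact hne
    have h2 : Real.exp (2 * Real.log (v ((ε : 𝓞 k) : k))) = rv v ((ε : 𝓞 k) : k) ^ 2 := by
      rw [two_mul, Real.exp_add, Real.exp_log hpos, ← abs_rv, ← sq, sq_abs]
    rw [h2]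
    ring
  refine ⟨h1, ?_, ?_⟩
  · intro u
    unfold qp
    simp only [rv_smul]
    rw [Finset.prod_mul_distrib]
    have h2 : ∏ v : Pl k, rv v ((ε : 𝓞 k) : k) ^ 2 = 1 := by
      have h3 := NumberField.InfinitePlace.prod_eq_abs_norm ((ε : 𝓞 k) : k)
      have h4 : (|Algebra.norm ℚ ((ε : 𝓞 k) : k)| : ℚ) = 1 := NumberField.Units.norm k ε
      have h5 : ∏ v : Pl k, v ((ε : 𝓞 k) : k) = 1 := by
        have h6 : ∏ v : Pl k, v ((ε : 𝓞 k) : k) = ∏ v : Pl k, v ((ε : 𝓞 k) : k) ^ v.mult := by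
          refine Finset.prod_congr rfl fun v _ => ?_
          have : v.mult = 1 := by
            unfold NumberField.InfinitePlace.mult
            rw [if_pos (IsTotallyReal.isReal v)]
          rw [this, pow_one]
        rw [h6, h3]
        exact_mod_cast h4
      have h7 : ∀ v : Pl k, rv v ((ε : 𝓞 k) : k) ^ 2 = v ((ε : 𝓞 k) : k) ^ 2 := by
        intro v
        rw [← abs_rv, sq_abs]
      simp only [h7]
      rw [Finset.prod_pow, h5, one_pow]
    rw [h2, one_mul]
  · intro M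
    unfold th2
    rw [← (MulAction.toPerm ε : Equiv.Perm (V2 k)).tsum_eq (fun u : V2 k =>
      if u ∈ M then Real.exp (-(2 * π) * qs x y (yc k τ z) u) else 0)]
    refine tsum_congr fun u => ?_
    have h2 : (MulAction.toPerm ε : Equiv.Perm (V2 k)) u = (ε : 𝓞 k) • u := rfl
    rw [h1, h2]
    have h3 : (ε : 𝓞 k) • u ∈ M ↔ u ∈ M := by
      constructor
      · intro h
        have h4 := M.smul_mem ((ε⁻¹ : (𝓞 k)ˣ) : 𝓞 k) h
        rwa [smul_smul, Units.inv_mul, one_smul] at h4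
      · exact fun h => M.smul_mem _ h
    by_cases h : u ∈ M
    · rw [if_pos h, if_pos (h3.2 h)]
    · rw [if_neg h, if_neg (fun h' => h (h3.1 h'))]

end Pool.Agent.H60.CM4B
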